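import Mathlib

/-!
Definitions used in the statement for MP_fe499a_co.
-/

namespace Pool.Agent.Work.MP_fe499a_co

/-- A rooted forest on the vertex set `V`: `parent v` is the parent of `v` (`none` if `v` is a
root), and `depth v` is the number of vertices on the path from the root to `v`. -/
structure RootedForest (V : Type*) where
  /-- the parent of a vertex, `none` for a root -/
  parent : V → Option V
  /-- the number of vertices on the path from the root to the given vertex -/
  depth : V → ℕ
  depth_root : ∀ v, parent v = none → depth v = 1
  depth_child : ∀ v w, parent v = some w → depth v = depth w + 1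

/-- `T.IsAncestor a v`: `a` is reached from `v` by repeatedly passing to the parent. -/
def RootedForest.IsAncestor {V : Type*} (T : RootedForest V) (a v : V) : Prop :=
  Relation.ReflTransGen (fun x y => T.parent x = some y) v a

/-- The treedepth of `G` is at most `k`: there is a rooted forest on the vertex set of `G`, of
height at most `k`, such that every edge joins a vertex to one of its ancestors. -/
def TreedepthLE {V : Type*} (G : SimpleGraph V) (k : ℕ) : Prop :=
  ∃ T : RootedForest V, (∀ v, T.depth v ≤ k) ∧
    ∀ u v, G.Adj u v → T.IsAncestor u v ∨ T.IsAncestor v u

/-- `F` has at least two cycles: two closed walks of `F` that are cycles and that trace out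
different subgraphs. -/
def HasTwoCycles {W : Type*} (F : SimpleGraph W) : Prop :=
  ∃ (u v : W) (p : F.Walk u u) (q : F.Walk v v),
    p.IsCycle ∧ q.IsCycle ∧ p.toSubgraph ≠ q.toSubgraph

end Pool.Agent.Work.MP_fe499a_co
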