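import Mathlib
import Pool.Agent.Work.MP_fe499a_co.Defs

/-!
A graph without a path on `N + 1` vertices has treedepth at most `N`.
-/

namespace Pool.Agent.Work.MP_fe499a_co

variable {V : Type*} (G : SimpleGraph V)

/-- ancestors with respect to a parent function -/
def Anc (par : V → Option V) (a v : V) : Prop :=
  Relation.ReflTransGen (fun x y => par x = some y) v a

/-- reachability inside the set `S` -/
def Rb (S : Set V) (a b : V) : Prop :=
  Relation.ReflTransGen (fun x y => G.Adj x y ∧ x ∈ S ∧ y ∈ S) a b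

/-- the component of `s` in `S` -/
def Cmp (S : Set V) (s : V) : Set V := {t | t ∈ S ∧ Rb G S s t}

/-- a good forest on the set `S` -/
def Good (S : Set V) (k : ℕ) : Prop :=
  ∃ (par : V → Option V) (dep : V → ℕ), (∀ v ∈ S, dep v ≤ k) ∧
    (∀ v ∈ S, par v = none → dep v = 1) ∧
    (∀ v ∈ S, ∀ w, par v = some w → w ∈ S ∧ dep v = dep w + 1) ∧
    (∀ u ∈ S, ∀ v ∈ S, G.Adj u v → Anc par u v ∨ Anc par v u)

variable {G}

lemma Rb.symm {S : Set V} {a b : V} (h : Rb G S a b) : Rb G S b a := by
  induction h with
  | refl => exact Relation.ReflTransGen.refl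
  | tail _ h2 ih => exact Relation.ReflTransGen.head ⟨h2.1.symm, h2.2.2, h2.2.1⟩ ih

lemma Rb.trans {S : Set V} {a b c : V} (h : Rb G S a b) (h' : Rb G S b c) : Rb G S a c :=
  Relation.ReflTransGen.trans h h'

lemma cmp_eq {S : Set V} {s t : V} (h : t ∈ Cmp G S s) : Cmp G S t = Cmp G S s := by
  ext x
  constructor
  · rintro ⟨h1, h2⟩
    exact ⟨h1, h.2.trans h2⟩
  · rintro ⟨h1, h2⟩
    exact ⟨h1, h.2.symm.trans h2⟩

lemma good_of_components {S : Set V} {k : ℕ} (h : ∀ s ∈ S, Good G (Cmp G S s) k) :
    Good G S k := by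
  classical
  have key : ∀ C : Set V, ∃ (par : V → Option V) (dep : V → ℕ), (∃ s ∈ S, C = Cmp G S s) →
      (∀ v ∈ C, dep v ≤ k) ∧ (∀ v ∈ C, par v = none → dep v = 1) ∧
      (∀ v ∈ C, ∀ w, par v = some w → w ∈ C ∧ dep v = dep w + 1) ∧
      (∀ u ∈ C, ∀ v ∈ C, G.Adj u v → Anc par u v ∨ Anc par v u) := by
    intro C
    by_cases hC : ∃ s ∈ S, C = Cmp G S s
    · obtain ⟨s, hs, rfl⟩ := hC
      obtain ⟨par, dep, h1⟩ := h s hs
      exact ⟨par, dep, fun _ => h1⟩
    · exact ⟨fun _ => none, fun _ => 0, fun hc => absurd hc hC⟩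
  choose par dep hkey using key
  have hself : ∀ v ∈ S, v ∈ Cmp G S v := fun v hv => ⟨hv, Relation.ReflTransGen.refl⟩
  have hK := fun v (hv : v ∈ S) => hkey (Cmp G S v) ⟨v, hv, rfl⟩
  refine ⟨fun v => par (Cmp G S v) v, fun v => dep (Cmp G S v) v, ?_, ?_, ?_, ?_⟩
  · intro v hv
    exact (hK v hv).1 v (hself v hv)
  · intro v hv
    exact (hK v hv).2.1 v (hself v hv)
  · intro v hv w hw
    obtain ⟨h1, h2⟩ := (hK v hv).2.2.1 v (hself v hv) w hw
    refine ⟨h1.1, ?_⟩
    simp only []
    rw [cmp_eq h1]
    exact h2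
  · intro u hu v hv huv
    have hvu : v ∈ Cmp G S u := ⟨hv, Relation.ReflTransGen.single ⟨huv, hu, hv⟩⟩
    have hC := cmp_eq hvu
    have lift : ∀ x y, y ∈ Cmp G S u → Anc (par (Cmp G S u)) x y →
        Anc (fun v => par (Cmp G S v) v) x y ∧ x ∈ Cmp G S u := by
      intro x y hy hxy
      induction hxy with
      | refl => exact ⟨Relation.ReflTransGen.refl, hy⟩
      | tail _ h2 ih =>
        refine ⟨Relation.ReflTransGen.tail ih.1 ?_, ((hK u hu).2.2.1 _ ih.2 _ h2).1⟩
        simp only []
        rw [cmp_eq ih.2]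
        exact h2
    rcases (hK u hu).2.2.2 u (hself u hu) v hvu huv with h1 | h1
    · exact Or.inl (lift _ _ hvu h1).1
    · exact Or.inr (lift _ _ (hself u hu) h1).1

lemma good_insert {S : Set V} {k : ℕ} {r : V} (hr : r ∉ S) (h : Good G S k) :
    Good G (insert r S) (k + 1) := by
  classical
  obtain ⟨par, dep, h1, h2, h3, h4⟩ := h
  let par' : V → Option V := fun v => if v = r then none else some ((par v).getD r)
  let dep' : V → ℕ := fun v => if v = r then 1 else dep v + 1
  have pr : par' r = none := by simp [par']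
  have pv : ∀ v, v ≠ r → par' v = some ((par v).getD r) := fun v hv => by simp [par', hv]
  have dr : dep' r = 1 := by simp [dep']
  have dv : ∀ v, v ≠ r → dep' v = dep v + 1 := fun v hv => by simp [dep', hv]
  have hne : ∀ v ∈ S, v ≠ r := fun v hv he => hr (he ▸ hv)
  have lift : ∀ x y, y ∈ S → Anc par x y → Anc par' x y ∧ x ∈ S := by
    intro x y hy hxy
    induction hxy with
    | refl => exact ⟨Relation.ReflTransGen.refl, hy⟩
    | tail _ hb ih =>
      refine ⟨Relation.ReflTransGen.tail ih.1 ?_, (h3 _ ih.2 _ hb).1⟩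
      rw [pv _ (hne _ ih.2), hb]
      rfl
  have root : ∀ n, ∀ v ∈ S, dep v = n → Anc par' r v := by
    intro n
    induction n with
    | zero =>
      intro v hv hd
      cases hp : par v with
      | none => have := h2 v hv hp; omega
      | some w => have := (h3 v hv w hp).2; omega
    | succ n ih =>
      intro v hv hd
      cases hp : par v with
      | none =>
        refine Relation.ReflTransGen.single ?_
        rw [pv _ (hne _ hv), hp]
        rfl
      | some w =>
        have hw := h3 v hv w hp
        refine Relation.ReflTransGen.head ?_ (ih w hw.1 (by omega))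
        rw [pv _ (hne _ hv), hp]
        rfl
  refine ⟨par', dep', ?_, ?_, ?_, ?_⟩
  · rintro v (rfl | hv)
    · rw [dr]; omega
    · rw [dv _ (hne _ hv)]
      have := h1 v hv
      omega
  · rintro v (rfl | hv) hp
    · exact dr
    · rw [pv _ (hne _ hv)] at hp
      cases hp
  · rintro v (rfl | hv) w hp
    · rw [pr] at hp; cases hp
    · rw [pv _ (hne _ hv)] at hp
      cases hpv : par v with
      | none =>
        rw [hpv] at hp
        simp only [Option.getD_none, Option.some.injEq] at hp
        subst hp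
        refine ⟨Set.mem_insert _ _, ?_⟩
        rw [dv _ (hne _ hv), dr, h2 v hv hpv]
      | some w' =>
        rw [hpv] at hp
        simp only [Option.getD_some, Option.some.injEq] at hp
        subst hp
        have hw := h3 v hv _ hpv
        refine ⟨Set.mem_insert_of_mem _ hw.1, ?_⟩
        rw [dv _ (hne _ hv), dv _ (hne _ hw.1), hw.2]
  · rintro u (rfl | hu) v (rfl | hv) huv
    · exact absurd rfl huv.ne
    · exact Or.inl (root _ v hv rfl)
    · exact Or.inr (root _ u hu rfl)
    · rcases h4 u hu v hv huv with h | h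
      · exact Or.inl (lift _ _ hv h).1
      · exact Or.inr (lift _ _ hu h).1

lemma good_of_paths : ∀ (k : ℕ) (S : Set V) (r : V), r ∈ S → (∀ s ∈ S, Rb G S r s) →
    (∀ l : List V, (r :: l).Nodup → (r :: l).IsChain G.Adj → (∀ x ∈ l, x ∈ S) →
      l.length + 1 ≤ k) → Good G S k := by
  classical
  intro k
  induction k with
  | zero =>
    intro S r _ _ h
    have := h [] (by simp) (by simp) (by simp)
    simp at this
  | succ k ih =>
    intro S r hr hconn hpath
    have hS : S = insert r (S \ {r}) := by
      rw [Set.insert_sdiff_singleton, Set.insert_eq_of_mem hr]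
    rw [hS]
    refine good_insert (by simp) ?_
    refine good_of_components ?_
    intro s hs
    -- a neighbour of `r` in the component of `s`
    have step : ∀ s, Rb G S r s → s = r ∨ ∃ t, G.Adj r t ∧ t ∈ S \ {r} ∧ Rb G (S \ {r}) t s := by
      intro s hs
      induction hs with
      | refl => exact Or.inl rfl
      | @tail b c _ h2 ih =>
        by_cases hc : c = r
        · exact Or.inl hc
        · right
          rcases ih with rfl | ⟨t, ht, htS, hR⟩
          · exact ⟨c, h2.1, ⟨h2.2.2, hc⟩, Relation.ReflTransGen.refl⟩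
          · by_cases hb : b = r
            · subst hb
              exact ⟨c, h2.1, ⟨h2.2.2, hc⟩, Relation.ReflTransGen.refl⟩
            · exact ⟨t, ht, htS, Relation.ReflTransGen.tail hR
                ⟨h2.1, ⟨h2.2.1, hb⟩, ⟨h2.2.2, hc⟩⟩⟩
    rcases step s (hconn s hs.1) with h | ⟨t, ht, htS, hR⟩
    · exact absurd h hs.2
    have hts : t ∈ Cmp G (S \ {r}) s := ⟨htS, hR.symm⟩
    rw [← cmp_eq hts]
    refine ih _ t ⟨htS, Relation.ReflTransGen.refl⟩ ?_ ?_
    · rintro x ⟨hx, hRx⟩
      -- reachability inside the component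
      have : ∀ y, Rb G (S \ {r}) t y → Rb G (Cmp G (S \ {r}) t) t y := by
        intro y hy
        induction hy with
        | refl => exact Relation.ReflTransGen.refl
        | tail h1 h2 ih' =>
          exact Relation.ReflTransGen.tail ih' ⟨h2.1, ⟨h2.2.1, h1⟩,
            ⟨h2.2.2, Relation.ReflTransGen.tail h1 h2⟩⟩
      exact this x hRx
    · intro l hn hc hl
      have := hpath (t :: l) ?_ ?_ ?_
      · simp only [List.length_cons] at this
        omega
      · rw [List.nodup_cons]
        refine ⟨?_, hn⟩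
        rw [List.mem_cons]
        rintro (h | h)
        · exact htS.2 h.symm
        · exact (hl r h).1.2 rfl
      · rw [List.isChain_cons_cons]
        exact ⟨ht, hc⟩
      · intro x hx
        rw [List.mem_cons] at hx
        rcases hx with rfl | hx
        · exact htS.1
        · exact (hl x hx).1.1

/-- If every path of `G` has at most `N` vertices, then the treedepth of `G` is at most `N`. -/
theorem treedepthLE_of_paths (N : ℕ)
    (h : ∀ l : List V, l.Nodup → l.IsChain G.Adj → l.length ≤ N) : TreedepthLE G N := by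
  have hg : Good G (Set.univ : Set V) N := by
    refine good_of_components ?_
    intro s _
    refine good_of_paths N _ s ⟨trivial, Relation.ReflTransGen.refl⟩ ?_ ?_
    · rintro x ⟨hx, hRx⟩
      have : ∀ y, Rb G Set.univ s y → Rb G (Cmp G Set.univ s) s y := by
        intro y hy
        induction hy with
        | refl => exact Relation.ReflTransGen.refl
        | tail h1 h2 ih' =>
          exact Relation.ReflTransGen.tail ih' ⟨h2.1, ⟨h2.2.1, h1⟩,
            ⟨h2.2.2, Relation.ReflTransGen.tail h1 h2⟩⟩
      exact this x hRx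
    · intro l hn hc _
      exact h (s :: l) hn hc
  obtain ⟨par, dep, h1, h2, h3, h4⟩ := hg
  refine ⟨⟨par, dep, fun v => h2 v trivial, fun v w hw => (h3 v trivial w hw).2⟩,
    fun v => h1 v trivial, fun u v huv => h4 u trivial v trivial huv⟩

end Pool.Agent.Work.MP_fe499a_co
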