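import Mathlib

/-!
Infinite version: an infinite graph in which any two vertices are joined by a path with at most
three edges, and which has a one-way infinite path, contains a `C₁₂` and a `C₁₈` sharing exactly
one vertex.
-/

open Filter

namespace Pool.Agent.Work.MP_fe499a_co

variable {V : Type*} (G : SimpleGraph V)

/-- `Lnk G u v n`: for every finite set `S` there is a walk `u, l, v` of length `n` whose list of
interior vertices `l` has no repetition and avoids `S`. -/
def Lnk (u v : V) (n : ℕ) : Prop :=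
  ∀ S : Finset V, ∃ l : List V, l.length + 1 = n ∧ l.Nodup ∧ (∀ x ∈ l, x ∉ S) ∧
    (u :: l ++ [v]).IsChain G.Adj

/-- Two cycles of lengths `a` and `b` sharing exactly the vertex `v`. -/
def Bow (a b : ℕ) : Prop :=
  ∃ (v : V) (l₁ l₂ : List V), l₁.length + 1 = a ∧ l₂.length + 1 = b ∧
    (v :: (l₁ ++ l₂)).Nodup ∧ (v :: l₁ ++ [v]).IsChain G.Adj ∧ (v :: l₂ ++ [v]).IsChain G.Adj

variable {G}

lemma chain_symm {l : List V} (h : l.IsChain G.Adj) : l.reverse.IsChain G.Adj := by
  rw [List.isChain_reverse]
  exact h.imp (fun a b hab => hab.symm)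

lemma Lnk.symm {u v : V} {n : ℕ} (h : Lnk G u v n) : Lnk G v u n := by
  intro S
  obtain ⟨l, h1, h2, h3, h4⟩ := h S
  refine ⟨l.reverse, by simpa using h1, by simpa using h2, by simpa using h3, ?_⟩
  have := chain_symm h4
  simpa using this

/-- gluing two chains at a common vertex -/
lemma chain_glue {u w v : V} {l₁ l₂ : List V} (h1 : (u :: l₁ ++ [w]).IsChain G.Adj)
    (h2 : (w :: l₂ ++ [v]).IsChain G.Adj) :
    (u :: (l₁ ++ w :: l₂) ++ [v]).IsChain G.Adj := by
  have e : u :: (l₁ ++ w :: l₂) ++ [v] = (u :: l₁) ++ (w :: l₂ ++ [v]) := by simp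
  rw [e, List.isChain_append]
  rw [List.isChain_append] at h1
  refine ⟨h1.1, h2, ?_⟩
  intro x hx y hy
  have hy' : y = w := by simpa using hy.symm
  subst hy'
  exact h1.2.2 x hx y (by simp)

/-- A closed loop of length `n` at `u`, avoiding any finite set disjoint from `Z`. -/
def Loop (G : SimpleGraph V) (u : V) (n : ℕ) (Z : Finset V) : Prop :=
  ∀ S : Finset V, Disjoint S Z → ∃ l : List V, l.length + 1 = n ∧ (u :: l).Nodup ∧
    (∀ x ∈ l, x ∉ S) ∧ (u :: l ++ [u]).IsChain G.Adj

lemma loop_one {u : V} {n : ℕ} (h : Lnk G u u n) : Loop G u n ∅ := by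
  classical
  intro S _
  obtain ⟨l, h1, h2, h3, h4⟩ := h (insert u S)
  refine ⟨l, h1, ?_, fun x hx hS => h3 x hx (Finset.mem_insert_of_mem hS), h4⟩
  rw [List.nodup_cons]
  exact ⟨fun hu => h3 u hu (Finset.mem_insert_self _ _), h2⟩

lemma loop_two {u v : V} {m n : ℕ} (huv : u ≠ v) (h : Lnk G u v m) (h' : Lnk G u v n) :
    Loop G u (m + n) {v} := by
  classical
  intro S hS
  have hvS : v ∉ S := by
    rw [Finset.disjoint_singleton_right] at hS
    exact hS
  obtain ⟨l, h1, h2, h3, h4⟩ := h (insert u (insert v S))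
  obtain ⟨l', h1', h2', h3', h4'⟩ := h'.symm (insert u (insert v (S ∪ l.toFinset)))
  refine ⟨l ++ v :: l', by simp; omega, ?_, ?_, ?_⟩
  · rw [List.nodup_cons]
    constructor
    · intro hu
      rw [List.mem_append, List.mem_cons] at hu
      rcases hu with hu | hu | hu
      · exact h3 u hu (by simp)
      · exact huv hu
      · exact h3' u hu (by simp)
    · rw [List.nodup_append]
      refine ⟨h2, ?_, ?_⟩
      · rw [List.nodup_cons]
        exact ⟨fun hv => h3' v hv (by simp), h2'⟩
      · intro x hx y hy hxy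
        subst hxy
        rw [List.mem_cons] at hy
        rcases hy with hy | hy
        · subst hy
          exact h3 _ hx (by simp)
        · exact h3' x hy (by simp [hx])
  · intro x hx hxS
    rw [List.mem_append, List.mem_cons] at hx
    rcases hx with hx | hx | hx
    · exact h3 x hx (by simp [hxS])
    · subst hx; exact hvS hxS
    · exact h3' x hx (by simp [hxS])
  · exact chain_glue h4 h4'

lemma bow_of_loops {u : V} {a b : ℕ} {Z₁ Z₂ : Finset V} (hZ : Disjoint Z₁ Z₂)
    (h1 : Loop G u a Z₁) (h2 : Loop G u b Z₂) : Bow G a b := by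
  classical
  obtain ⟨l₁, e1, n1, s1, c1⟩ := h1 Z₂ hZ.symm
  obtain ⟨l₂, e2, n2, s2, c2⟩ := h2 (l₁.toFinset) (by
    rw [Finset.disjoint_left]
    intro x hx
    exact s1 x (by simpa using hx))
  refine ⟨u, l₁, l₂, e1, e2, ?_, c1, c2⟩
  rw [List.nodup_cons] at n1 n2 ⊢
  refine ⟨?_, ?_⟩
  · rw [List.mem_append]
    rintro (h | h)
    · exact n1.1 h
    · exact n2.1 h
  · rw [List.nodup_append]
    refine ⟨n1.2, n2.2, ?_⟩
    intro x hx y hy hxy
    subst hxy
    exact s2 x hy (by simpa using hx)

/-! ### The colouring argument -/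

section Centres

/-- `A2 u v`: there are loops of length `12` with centre set `{u, v}`. -/
def Two (G : SimpleGraph V) (n : ℕ) (u v : V) : Prop :=
  u ≠ v ∧ ∃ k m, k + m = n ∧ Lnk G u v k ∧ Lnk G u v m

lemma Two.symm {n : ℕ} {u v : V} (h : Two G n u v) : Two G n v u := by
  obtain ⟨h0, k, m, h1, h2, h3⟩ := h
  exact ⟨h0.symm, k, m, h1, h2.symm, h3.symm⟩

lemma Two.loop {n : ℕ} {u v : V} (h : Two G n u v) : Loop G u n {v} := by
  obtain ⟨h0, k, m, h1, h2, h3⟩ := h
  rw [← h1]
  exact loop_two h0 h2 h3

/-- The combinatorial core of the case in which all offsets are centred. -/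
lemma centres_core (hB : ¬ Bow G 12 18) (c : ℕ → V)
    (hc : ∀ x d, Lnk G (c x) (c (x + d)) (d + 2)) : False := by
  classical
  -- basic exclusions
  have e1 : ∀ u v w, Two G 12 u v → Two G 18 u w → v = w := by
    intro u v w h1 h2
    by_contra hvw
    exact hB (bow_of_loops (by simpa using hvw) h1.loop h2.loop)
  have e2 : ∀ u w, Lnk G u u 12 → ¬ Two G 18 u w := by
    intro u w h1 h2
    exact hB (bow_of_loops (by simp) (loop_one h1) h2.loop)
  have e3 : ∀ u w, Lnk G u u 18 → ¬ Two G 12 u w := by
    intro u w h1 h2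
    exact hB (bow_of_loops (by simp) h2.loop (loop_one h1))
  have e4 : ∀ u, Lnk G u u 12 → ¬ Lnk G u u 18 := by
    intro u h1 h2
    exact hB (bow_of_loops (by simp) (loop_one h1) (loop_one h2))
  -- facts about `c`
  have c1 : ∀ x, c x ≠ c (x + 4) → Two G 12 (c x) (c (x + 4)) := fun x h =>
    ⟨h, 6, 6, rfl, hc x 4, hc x 4⟩
  have c2 : ∀ x, c x ≠ c (x + 7) → Two G 18 (c x) (c (x + 7)) := fun x h =>
    ⟨h, 9, 9, rfl, hc x 7, hc x 7⟩
  have c3 : ∀ x, c (x + 10) = c x → Lnk G (c x) (c x) 12 := by
    intro x h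
    have := hc x 10
    rwa [h] at this
  have c4 : ∀ x, c (x + 16) = c x → Lnk G (c x) (c x) 18 := by
    intro x h
    have := hc x 16
    rwa [h] at this
  have c5 : ∀ x d, d ≤ 8 → c (x + 8) = c x → c x ≠ c (x + d) → Two G 12 (c x) (c (x + d)) := by
    intro x d hd h hne
    refine ⟨hne, d + 2, (8 - d) + 2, by omega, hc x d, ?_⟩
    have := hc (x + d) (8 - d)
    rw [show x + d + (8 - d) = x + 8 by omega, h] at this
    exact this.symm
  have c6 : ∀ x d, d ≤ 14 → c (x + 14) = c x → c x ≠ c (x + d) →
      Two G 18 (c x) (c (x + d)) := by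
    intro x d hd h hne
    refine ⟨hne, d + 2, (14 - d) + 2, by omega, hc x d, ?_⟩
    have := hc (x + d) (14 - d)
    rw [show x + d + (14 - d) = x + 14 by omega, h] at this
    exact this.symm
  -- not 4-periodic
  have n4 : ∃ x, c x ≠ c (x + 4) := by
    by_contra hcon
    push Not at hcon
    have h8 : c (0 + 8) = c 0 := by rw [hcon 0, hcon (0 + 4)]
    have h16 : c (0 + 16) = c 0 := by
      rw [hcon 0, hcon (0 + 4), hcon (0 + 4 + 4), hcon (0 + 4 + 4 + 4)]
    have hB0 := c4 0 h16
    have h2 : c 0 = c (0 + 2) := by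
      by_contra hne
      exact e3 _ _ hB0 (c5 0 2 (by norm_num) h8 hne)
    have h10 : c (0 + 10) = c 0 := by
      rw [h2, hcon (0 + 2), hcon (0 + 2 + 4)]
    exact e4 _ (c3 0 h10) hB0
  -- not 7-periodic
  have n7 : ∃ x, c x ≠ c (x + 7) := by
    by_contra hcon
    push Not at hcon
    obtain ⟨x, hx⟩ := n4
    have hA := c1 x hx
    have h14 : c (x + 14) = c x := by rw [hcon x, hcon (x + 7)]
    have hBuv : Two G 18 (c x) (c (x + 4)) := c6 x 4 (by norm_num) h14 hx
    -- only two values
    have hval : ∀ d, d ≤ 14 → c (x + d) = c x ∨ c (x + d) = c (x + 4) := by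
      intro d hd
      by_cases h : c x = c (x + d)
      · left; exact h.symm
      · right; exact (e1 _ _ _ hA (c6 x d hd h14 h)).symm
    -- one step of `3` always changes the value
    have h3 : ∀ y, x ≤ y → y ≤ x + 10 → c y ≠ c (y + 3) := by
      intro y h1 h2 h
      have h10 : c (y + 10) = c y := by
        have := hcon (y + 3)
        rw [show y + 3 + 7 = y + 10 by omega] at this
        rw [← this, ← h]
      have hy := c3 y h10
      obtain ⟨d, rfl⟩ := Nat.exists_eq_add_of_le h1
      rcases hval d (by omega) with hd | hd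
      · rw [hd] at hy
        exact e2 _ _ hy hBuv
      · rw [hd] at hy
        exact e2 _ _ hy hBuv.symm
    have h0 : c (x + 0) = c x := rfl
    have v3 := hval 3 (by norm_num)
    have v6 := hval 6 (by norm_num)
    have v1 := hval 1 (by norm_num)
    have v4 := hval 4 (by norm_num)
    have a0 := h3 x le_rfl (by omega)
    have a3 := h3 (x + 3) (by omega) (by omega)
    have a1 := h3 (x + 1) (by omega) (by omega)
    have a4 := h3 (x + 4) (by omega) (by omega)
    have p0 := hcon x
    simp only [Nat.add_assoc, Nat.reduceAdd] at a3 a1 a4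
    -- c (x+3) = v, c (x+6) = u, c(x+7) = u, c(x+4) = v, c(x+1) = u
    have w3 : c (x + 3) = c (x + 4) := by
      rcases v3 with h | h
      · exact absurd h.symm a0
      · exact h
    have w6 : c (x + 6) = c x := by
      rcases v6 with h | h
      · exact h
      · exact absurd (w3.trans h.symm) a3
    have w1 : c (x + 1) = c x := by
      rcases v1 with h | h
      · exact h
      · exact absurd h a1
    -- c (x+2)
    have v2 := hval 2 (by norm_num)
    have v5 := hval 5 (by norm_num)
    have a2 := h3 (x + 2) (by omega) (by omega)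
    have a5 := h3 (x + 5) (by omega) (by omega)
    have a6 := h3 (x + 6) (by omega) (by omega)
    have p1 := hcon (x + 1)
    have p2 := hcon (x + 2)
    simp only [Nat.add_assoc, Nat.reduceAdd] at a2 a5 a6 p1 p2
    -- c (x+5) ≠ c (x+8) = c (x+1) = u
    have w5 : c (x + 5) = c (x + 4) := by
      rcases v5 with h | h
      · exact absurd (h.trans (w1.symm.trans p1)) a5
      · exact h
    have w2 : c (x + 2) = c x := by
      rcases v2 with h | h
      · exact h
      · exact absurd (h.trans w5.symm) a2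
    -- c (x+6) ≠ c (x+9) = c (x+2)
    exact a6 (w6.trans (w2.symm.trans p2))
  obtain ⟨x, hx⟩ := n4
  have hA := c1 x hx
  by_cases hT : (∀ w, ¬ Two G 18 (c x) w)
  · -- closure argument gives 7-periodicity
    have up7 : ∀ z, (∀ w, ¬ Two G 18 (c z) w) → c (z + 7) = c z := by
      intro z hz
      by_contra h
      exact hz _ (c2 z (Ne.symm h))
    have dn7 : ∀ z, (∀ w, ¬ Two G 18 (c (z + 7)) w) → c (z + 7) = c z := by
      intro z hz
      by_contra h
      exact hz _ (c2 z (Ne.symm h)).symm
    have up4 : ∀ z, (∀ w, ¬ Two G 18 (c z) w) → (∀ w, ¬ Two G 18 (c (z + 4)) w) := by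
      intro z hz w hw
      by_cases h : c z = c (z + 4)
      · rw [← h] at hw; exact hz _ hw
      · have := e1 _ _ _ (c1 z h).symm hw
        subst this
        exact hz _ hw.symm
    have dn4 : ∀ z, (∀ w, ¬ Two G 18 (c (z + 4)) w) → (∀ w, ¬ Two G 18 (c z) w) := by
      intro z hz w hw
      by_cases h : c z = c (z + 4)
      · rw [h] at hw; exact hz _ hw
      · have := e1 _ _ _ (c1 z h) hw
        subst this
        exact hz _ hw.symm
    have up1 : ∀ z, (∀ w, ¬ Two G 18 (c z) w) → (∀ w, ¬ Two G 18 (c (z + 1)) w) := by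
      intro z hz
      have h8 := up4 _ (up4 _ hz)
      rw [show z + 4 + 4 = z + 1 + 7 by omega] at h8
      rw [dn7 _ h8] at h8
      exact h8
    have dn1 : ∀ z, (∀ w, ¬ Two G 18 (c (z + 1)) w) → (∀ w, ¬ Two G 18 (c z) w) := by
      intro z hz
      have h8 : ∀ w, ¬ Two G 18 (c (z + 1 + 7)) w := by rw [up7 _ hz]; exact hz
      rw [show z + 1 + 7 = z + 4 + 4 by omega] at h8
      exact dn4 _ (dn4 _ h8)
    have h0 : ∀ k, (∀ w, ¬ Two G 18 (c k) w) → (∀ w, ¬ Two G 18 (c 0) w) := by
      intro k
      induction k with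
      | zero => exact id
      | succ k ih => exact fun h => ih (dn1 _ h)
    have hall : ∀ k, (∀ w, ¬ Two G 18 (c k) w) := by
      intro k
      induction k with
      | zero => exact h0 x hT
      | succ k ih => exact up1 _ ih
    obtain ⟨y, hy⟩ := n7
    exact hy (up7 y (hall y)).symm
  · push Not at hT
    obtain ⟨w, hw⟩ := hT
    have hvw := e1 _ _ _ hA hw
    subst hvw
    -- now both relations hold for `u = c x`, `v = c (x+4)`
    set u := c x with hu
    set v := c (x + 4) with hv
    have uA : ∀ z, Two G 12 u z → z = v := fun z h => e1 _ _ _ h hw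
    have vA : ∀ z, Two G 12 v z → z = u := fun z h => e1 _ _ _ h hw.symm
    have uB : ∀ z, Two G 18 u z → z = v := fun z h => (e1 _ _ _ hA h).symm
    have vB : ∀ z, Two G 18 v z → z = u := fun z h => (e1 _ _ _ hA.symm h).symm
    have up4 : ∀ z, (c z = u ∨ c z = v) → (c (z + 4) = u ∨ c (z + 4) = v) := by
      intro z hz
      by_cases h : c z = c (z + 4)
      · rw [← h]; exact hz
      · rcases hz with hz | hz
        · right; exact uA _ (hz ▸ c1 z h)
        · left; exact vA _ (hz ▸ c1 z h)
    have dn4 : ∀ z, (c (z + 4) = u ∨ c (z + 4) = v) → (c z = u ∨ c z = v) := by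
      intro z hz
      by_cases h : c z = c (z + 4)
      · rw [h]; exact hz
      · rcases hz with hz | hz
        · right; exact uA _ (hz ▸ (c1 z h).symm)
        · left; exact vA _ (hz ▸ (c1 z h).symm)
    have up7 : ∀ z, (c z = u ∨ c z = v) → (c (z + 7) = u ∨ c (z + 7) = v) := by
      intro z hz
      by_cases h : c z = c (z + 7)
      · rw [← h]; exact hz
      · rcases hz with hz | hz
        · right; exact uB _ (hz ▸ c2 z h)
        · left; exact vB _ (hz ▸ c2 z h)
    have dn7 : ∀ z, (c (z + 7) = u ∨ c (z + 7) = v) → (c z = u ∨ c z = v) := by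
      intro z hz
      by_cases h : c z = c (z + 7)
      · rw [h]; exact hz
      · rcases hz with hz | hz
        · right; exact uB _ (hz ▸ (c2 z h).symm)
        · left; exact vB _ (hz ▸ (c2 z h).symm)
    have up1 : ∀ z, (c z = u ∨ c z = v) → (c (z + 1) = u ∨ c (z + 1) = v) := by
      intro z hz
      have h8 := up4 _ (up4 _ hz)
      rw [show z + 4 + 4 = z + 1 + 7 by omega] at h8
      exact dn7 _ h8
    have dn1 : ∀ z, (c (z + 1) = u ∨ c (z + 1) = v) → (c z = u ∨ c z = v) := by
      intro z hz
      have h8 := up7 _ hz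
      rw [show z + 1 + 7 = z + 4 + 4 by omega] at h8
      exact dn4 _ (dn4 _ h8)
    have h0 : ∀ k, (c k = u ∨ c k = v) → (c 0 = u ∨ c 0 = v) := by
      intro k
      induction k with
      | zero => exact id
      | succ k ih => exact fun h => ih (dn1 _ h)
    have hall : ∀ k, (c k = u ∨ c k = v) := by
      intro k
      induction k with
      | zero => exact h0 x (Or.inl rfl)
      | succ k ih => exact up1 _ ih
    have f10 : ∀ z, c (z + 10) ≠ c z := by
      intro z h
      have := c3 z h
      rcases hall z with hz | hz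
      · rw [hz] at this; exact e2 _ _ this hw
      · rw [hz] at this; exact e2 _ _ this hw.symm
    have f16 : ∀ z, c (z + 16) ≠ c z := by
      intro z h
      have := c4 z h
      rcases hall z with hz | hz
      · rw [hz] at this; exact e3 _ _ this hA
      · rw [hz] at this; exact e3 _ _ this hA.symm
    have two : ∀ p q r, c p ≠ c q → c q ≠ c r → c p = c r := by
      intro p q r h1 h2
      rcases hall p with hp | hp <;> rcases hall q with hq | hq <;> rcases hall r with hr | hr <;>
        first
          | exact hp.trans hr.symm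
          | exact absurd (hp.trans hq.symm) h1
          | exact absurd (hq.trans hr.symm) h2
    have s6 : ∀ z, c (z + 6) = c z := by
      intro z
      have h1 := f10 (z + 6)
      have h2 := f16 z
      rw [show z + 6 + 10 = z + 16 by omega] at h1
      exact two _ (z + 16) _ h1.symm h2
    have f4 : ∀ z, c (z + 4) ≠ c z := by
      intro z h
      have h1 := f10 z
      have h2 := s6 (z + 4)
      rw [show z + 4 + 6 = z + 10 by omega] at h2
      exact h1 (h2.trans h)
    have g8 : c (0 + 4 + 4) = c 0 := two _ (0 + 4) _ (f4 (0 + 4)) (f4 0)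
    have g12 := f4 (0 + 4 + 4)
    have g12' : c (0 + 6 + 6) = c 0 := by rw [s6, s6]
    apply g12
    rw [g8, ← g12']

end Centres

end Pool.Agent.Work.MP_fe499a_co
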