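import Mathlib
import Pool.Agent.Work.MP_fe499a_co.Infinite

/-!
The generic case (no vertex is adjacent to many of the vertices `q i`) and the final theorem for
infinite graphs.
-/

open Filter

namespace Pool.Agent.Work.MP_fe499a_co

variable {V : Type*} {G : SimpleGraph V}

/-- the chosen nonprincipal ultrafilter on `ℕ`. -/
noncomputable abbrev UU : Ultrafilter ℕ := hyperfilter ℕ

lemma ev_avoid {w : ℕ → V} (hw : ∀ v, ∀ᶠ i in (UU : Filter ℕ), w i ≠ v) (S : Finset V) :
    ∀ᶠ i in (UU : Filter ℕ), w i ∉ S := by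
  have : ∀ᶠ i in (UU : Filter ℕ), ∀ v ∈ S, w i ≠ v := by
    rw [Finset.eventually_all]
    intro v _
    exact hw v
  filter_upwards [this] with i hi hS
  exact hi _ hS rfl

lemma ev_nonadj {w : ℕ → V} (hw : ∀ v, ∀ᶠ i in (UU : Filter ℕ), ¬ G.Adj (w i) v) (S : Finset V) :
    ∀ᶠ i in (UU : Filter ℕ), ∀ v ∈ S, ¬ G.Adj (w i) v := by
  rw [Finset.eventually_all]
  intro v _
  exact hw v

/-- generic pairs are linked with length `n` -/
def Lam (G : SimpleGraph V) (w : ℕ → V) (n : ℕ) : Prop :=
  ∀ᶠ i in (UU : Filter ℕ), ∀ᶠ j in (UU : Filter ℕ), Lnk G (w i) (w j) n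

/-- from a generic vertex one can reach a generic later vertex with length `n` -/
def Rch (G : SimpleGraph V) (w : ℕ → V) (n : ℕ) : Prop :=
  ∀ᶠ i in (UU : Filter ℕ), ∀ S : Finset V, ∀ᶠ j in (UU : Filter ℕ),
    ∃ l : List V, l.length + 1 = n ∧ l.Nodup ∧ (∀ x ∈ l, x ∉ S) ∧ w j ∉ l ∧
      (w i :: l ++ [w j]).IsChain G.Adj

lemma rch_of_lam {w : ℕ → V} {n : ℕ} (h : Lam G w n) : Rch G w n := by
  classical
  filter_upwards [h] with i hi S
  filter_upwards [hi] with j hj
  obtain ⟨l, h1, h2, h3, h4⟩ := hj (insert (w j) S)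
  exact ⟨l, h1, h2, fun x hx hS => h3 x hx (by simp [hS]), fun hx => h3 _ hx (by simp), h4⟩

lemma lam_of_rch {w : ℕ → V} (hw : ∀ v, ∀ᶠ i in (UU : Filter ℕ), w i ≠ v) {m n : ℕ}
    (h1 : Rch G w m) (h2 : Lam G w n) : Lam G w (m + n) := by
  classical
  filter_upwards [h1] with i hi
  filter_upwards [h2] with k hk
  intro S
  have e1 := hi S
  have e2 := ev_avoid hw S
  obtain ⟨j, ⟨l, a1, a2, a3, hjl, a4⟩, hj1, hj2⟩ := (e1.and (hk.and e2)).exists
  obtain ⟨l', b1, b2, b3, b4⟩ := hj1.symm (insert (w j) (S ∪ l.toFinset))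
  refine ⟨l ++ w j :: l', by simp; omega, ?_, ?_, ?_⟩
  · rw [List.nodup_append]
    refine ⟨a2, ?_, ?_⟩
    · rw [List.nodup_cons]
      exact ⟨fun hv => b3 _ hv (by simp), b2⟩
    · intro x hx y hy hxy
      subst hxy
      rw [List.mem_cons] at hy
      rcases hy with hy | hy
      · subst hy; exact hjl hx
      · exact b3 x hy (by simp [hx])
  · intro x hx hxS
    rw [List.mem_append, List.mem_cons] at hx
    rcases hx with hx | hx | hx
    · exact a3 x hx (by simp [hxS])
    · subst hx; exact hj2 hxS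
    · exact b3 x hx (by simp [hxS])
  · exact chain_glue a4 b4

lemma lam_add {w : ℕ → V} (hw : ∀ v, ∀ᶠ i in (UU : Filter ℕ), w i ≠ v) {m n : ℕ}
    (h1 : Lam G w m) (h2 : Lam G w n) : Lam G w (m + n) :=
  lam_of_rch hw (rch_of_lam h1) h2

lemma bow_of_lam {w : ℕ → V} (hw : ∀ v, ∀ᶠ i in (UU : Filter ℕ), w i ≠ v) {m n m' n' : ℕ}
    (h1 : Lam G w m) (h2 : Lam G w n) (h3 : Lam G w m') (h4 : Lam G w n') :
    Bow G (m + n) (m' + n') := by
  obtain ⟨i, i1, i2, i3, i4⟩ := (h1.and (h2.and (h3.and h4))).exists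
  obtain ⟨j, j1, j2, j5⟩ := (i1.and (i2.and (hw (w i)))).exists
  obtain ⟨k, k3, k4, k5, k6⟩ := (i3.and (i4.and ((hw (w i)).and (hw (w j))))).exists
  exact bow_of_loops (Z₁ := {w j}) (Z₂ := {w k}) (by simpa using k6.symm)
    (loop_two j5.symm j1 j2) (loop_two k5.symm k3 k4)

lemma bow_of_six {w : ℕ → V} (hw : ∀ v, ∀ᶠ i in (UU : Filter ℕ), w i ≠ v)
    (h : Lam G w 6) : Bow G 12 18 :=
  bow_of_lam hw h h h (lam_add hw h h)

lemma bow_of_four_seven {w : ℕ → V} (hw : ∀ v, ∀ᶠ i in (UU : Filter ℕ), w i ≠ v)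
    (h4 : Lam G w 4) (h7 : Lam G w 7) : Bow G 12 18 :=
  bow_of_lam hw h4 (lam_add hw h4 h4) h7 (lam_add hw h4 h7)

lemma ev_or_not {P : ℕ → Prop} :
    (∀ᶠ i in (UU : Filter ℕ), P i) ∨ (∀ᶠ i in (UU : Filter ℕ), ¬ P i) := by
  rw [Ultrafilter.eventually_not]
  exact em _

lemma ev2_or_not {P : ℕ → ℕ → Prop} :
    (∀ᶠ i in (UU : Filter ℕ), ∀ᶠ j in (UU : Filter ℕ), P i j) ∨
      (∀ᶠ i in (UU : Filter ℕ), ∀ᶠ j in (UU : Filter ℕ), ¬ P i j) := by
  rcases ev_or_not (P := fun i => ∀ᶠ j in (UU : Filter ℕ), P i j) with h | h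
  · exact Or.inl h
  · right
    filter_upwards [h] with i hi
    rwa [Ultrafilter.eventually_not]

/-- Two-step connections `w i - y - q j`. -/
lemma two_step {q w : ℕ → V} (hq : ∀ v, ∀ᶠ i in (UU : Filter ℕ), q i ≠ v)
    (hqn : ∀ v, ∀ᶠ i in (UU : Filter ℕ), ¬ G.Adj (q i) v)
    (h : ∀ᶠ i in (UU : Filter ℕ), ∀ᶠ j in (UU : Filter ℕ), ∃ y, G.Adj (w i) y ∧ G.Adj y (q j)) :
    Lam G w 2 ∨ Lam G w 4 := by
  classical
  rcases ev2_or_not (P := fun i k => ∀ᶠ j in (UU : Filter ℕ),
    ∃ y, G.Adj (w i) y ∧ G.Adj (w k) y ∧ G.Adj y (q j)) with h1 | h1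
  · left
    filter_upwards [h1] with i hi
    filter_upwards [hi] with k hk
    intro S
    obtain ⟨j, ⟨y, y1, y2, y3⟩, hj⟩ := (hk.and (ev_nonadj hqn S)).exists
    refine ⟨[y], rfl, by simp, ?_, ?_⟩
    · intro x hx hxS
      rw [List.mem_singleton] at hx
      subst hx
      exact hj _ hxS y3.symm
    · simp [y1, y2.symm]
  · right
    filter_upwards [h, h1] with i hi hi'
    filter_upwards [h, hi'] with k hk hk'
    rw [← Ultrafilter.eventually_not] at hk'
    intro S
    obtain ⟨j, hj1, hj2, hj3, hj4, hj5⟩ :=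
      (hk'.and (hi.and (hk.and ((ev_nonadj hqn S).and (ev_avoid hq S))))).exists
    obtain ⟨y, y1, y2⟩ := hj2
    obtain ⟨z, z1, z2⟩ := hj3
    have hyz : y ≠ z := by
      rintro rfl
      exact hj1 ⟨y, y1, z1, y2⟩
    refine ⟨[y, q j, z], rfl, ?_, ?_, ?_⟩
    · simp [y2.ne, z2.ne.symm, hyz]
    · intro x hx hxS
      simp only [List.mem_cons, List.not_mem_nil, or_false] at hx
      rcases hx with hx | hx | hx
      · subst hx; exact hj4 _ hxS y2.symm
      · subst hx; exact hj5 hxS
      · subst hx; exact hj4 _ hxS z2.symm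
    · simp [y1, y2, z1.symm, z2.symm]

/-- The generic case. -/
lemma generic_case {q : ℕ → V} (hq : ∀ v, ∀ᶠ i in (UU : Filter ℕ), q i ≠ v)
    (hqn : ∀ v, ∀ᶠ i in (UU : Filter ℕ), ¬ G.Adj (q i) v)
    (hd : ∀ u v, u = v ∨ G.Adj u v ∨ (∃ x, G.Adj u x ∧ G.Adj x v) ∨
      ∃ x y, G.Adj u x ∧ G.Adj x y ∧ G.Adj y v) : Bow G 12 18 := by
  classical
  rcases ev2_or_not (P := fun i j => ∃ x, G.Adj (q i) x ∧ G.Adj x (q j)) with h2 | h2
  · -- generic distance two
    have hr : Rch G q 2 := by
      filter_upwards [h2] with i hi S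
      filter_upwards [hi, ev_nonadj hqn S] with j hj hj'
      obtain ⟨x, x1, x2⟩ := hj
      refine ⟨[x], rfl, by simp, ?_, ?_, ?_⟩
      · intro y hy hyS
        rw [List.mem_singleton] at hy
        subst hy
        exact hj' _ hyS x2.symm
      · simp [x2.ne.symm]
      · simp [x1, x2]
    rcases two_step hq hqn h2 with h | h
    · exact bow_of_six hq (lam_add hq h (lam_add hq h h))
    · exact bow_of_six hq (lam_of_rch hq hr h)
  · -- generic distance three
    have h3 : ∀ᶠ i in (UU : Filter ℕ), ∀ᶠ j in (UU : Filter ℕ),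
        ∃ x y, G.Adj (q i) x ∧ G.Adj x y ∧ G.Adj y (q j) := by
      filter_upwards [h2] with i hi
      filter_upwards [hi, hq (q i), hqn (q i)] with j hj1 hj2 hj3
      rcases hd (q i) (q j) with h | h | h | h
      · exact absurd h.symm hj2
      · exact absurd h.symm hj3
      · exact absurd h hj1
      · exact h
    by_cases hA : ∀ᶠ i in (UU : Filter ℕ), ∃ x, G.Adj (q i) x ∧
        ∀ᶠ j in (UU : Filter ℕ), ∃ y, G.Adj x y ∧ G.Adj y (q j)
    · -- first vertex of the connection can be chosen independently of `j`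
      let u : ℕ → V := fun i => if h : ∃ x, G.Adj (q i) x ∧
        ∀ᶠ j in (UU : Filter ℕ), ∃ y, G.Adj x y ∧ G.Adj y (q j) then h.choose else q i
      have hu : ∀ᶠ i in (UU : Filter ℕ), G.Adj (q i) (u i) ∧
          ∀ᶠ j in (UU : Filter ℕ), ∃ y, G.Adj (u i) y ∧ G.Adj y (q j) := by
        filter_upwards [hA] with i hi
        simp only [u, dif_pos hi]
        exact hi.choose_spec
      have hu' : ∀ v, ∀ᶠ i in (UU : Filter ℕ), u i ≠ v := by
        intro v
        filter_upwards [hu, hqn v] with i hi hi' he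
        rw [he] at hi
        exact hi' hi.1
      have h2' : ∀ᶠ i in (UU : Filter ℕ), ∀ᶠ j in (UU : Filter ℕ),
          ∃ y, G.Adj (u i) y ∧ G.Adj y (q j) := by
        filter_upwards [hu] with i hi using hi.2
      rcases ev2_or_not (P := fun i j => G.Adj (u i) (u j)) with hadj | hadj
      · have h1 : Lam G u 1 := by
          filter_upwards [hadj] with i hi
          filter_upwards [hi] with j hj S
          exact ⟨[], rfl, by simp, by simp, by simpa using hj⟩
        have h3 : Lam G u 3 := lam_add hu' h1 (lam_add hu' h1 h1)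
        exact bow_of_six hu' (lam_add hu' h3 h3)
      have hr : Rch G u 3 := by
        filter_upwards [h2', hadj] with i hi hi0 S
        filter_upwards [hi, hu, ev_nonadj hqn S, ev_avoid hq S, hi0] with
          j hj hj1 hj2 hj3 hj4
        obtain ⟨y, y1, y2⟩ := hj
        refine ⟨[y, q j], rfl, ?_, ?_, ?_, ?_⟩
        · simp [y2.ne]
        · intro x hx hxS
          simp only [List.mem_cons, List.not_mem_nil, or_false] at hx
          rcases hx with hx | hx
          · subst hx; exact hj2 _ hxS y2.symm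
          · subst hx; exact hj3 hxS
        · simp only [List.mem_cons, List.not_mem_nil, or_false, not_or]
          refine ⟨?_, hj1.1.ne.symm⟩
          rintro rfl
          exact hj4 y1
        · simp [y1, y2, hj1.1]
      rcases two_step hq hqn h2' with h | h
      · exact bow_of_six hu' (lam_add hu' h (lam_add hu' h h))
      · exact bow_of_four_seven hu' h (by simpa using lam_of_rch hu' hr h)
    · -- the first vertex of the connection is generic as well
      have hN : ∀ᶠ i in (UU : Filter ℕ), ∀ S : Finset V, ∀ᶠ j in (UU : Filter ℕ),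
          ∀ x ∈ S, G.Adj (q i) x → ¬ ∃ y, G.Adj x y ∧ G.Adj y (q j) := by
        rw [← Ultrafilter.eventually_not] at hA
        filter_upwards [hA] with i hi S
        rw [Finset.eventually_all]
        intro x _
        by_cases hx : G.Adj (q i) x
        · have : ¬ ∀ᶠ j in (UU : Filter ℕ), ∃ y, G.Adj x y ∧ G.Adj y (q j) :=
            fun hc => hi ⟨x, hx, hc⟩
          rw [← Ultrafilter.eventually_not] at this
          filter_upwards [this] with j hj _ using hj
        · exact Filter.Eventually.of_forall (fun j h => absurd h hx)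
      have hr : Rch G q 3 := by
        filter_upwards [h3, hN] with i hi hi' S
        filter_upwards [hi, hi' S, ev_nonadj hqn S, hqn (q i)] with j hj hj1 hj2 hj3
        obtain ⟨x, y, x1, x2, x3⟩ := hj
        refine ⟨[x, y], rfl, ?_, ?_, ?_, ?_⟩
        · simp [x2.ne]
        · intro z hz hzS
          simp only [List.mem_cons, List.not_mem_nil, or_false] at hz
          rcases hz with hz | hz
          · subst hz; exact hj1 _ hzS x1 ⟨y, x2, x3⟩
          · subst hz; exact hj2 _ hzS x3.symm
        · simp only [List.mem_cons, List.not_mem_nil, or_false, not_or]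
          refine ⟨?_, x3.ne.symm⟩
          rintro h
          rw [← h] at x1
          exact hj3 x1.symm
        · simp [x1, x2, x3]
      rcases ev2_or_not (P := fun i k => ∀ᶠ j in (UU : Filter ℕ),
        ∃ x y z, G.Adj (q i) x ∧ G.Adj x y ∧ G.Adj (q k) z ∧ G.Adj z y ∧ G.Adj y (q j)) with hc | hc
      · have h4 : Lam G q 4 := by
          filter_upwards [hc, hN, h2] with i hi hi1 hi2
          filter_upwards [hi, hN, hi2] with k hk hk1 hk2
          intro S
          obtain ⟨j, ⟨x, y, z, a1, a2, a3, a4, a5⟩, hj1, hj2, hj3⟩ :=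
            (hk.and ((hi1 S).and ((hk1 S).and (ev_nonadj hqn S)))).exists
          have hxz : x ≠ z := by
            rintro rfl
            exact hk2 ⟨x, a1, a3.symm⟩
          refine ⟨[x, y, z], rfl, ?_, ?_, ?_⟩
          · simp [a2.ne, a4.ne.symm, hxz]
          · intro w hw hwS
            simp only [List.mem_cons, List.not_mem_nil, or_false] at hw
            rcases hw with hw | hw | hw
            · subst hw; exact hj1 _ hwS a1 ⟨y, a2, a5⟩
            · subst hw; exact hj3 _ hwS a5.symm
            · subst hw; exact hj2 _ hwS a3 ⟨y, a4, a5⟩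
          · simp [a1, a2, a4.symm, a3.symm]
        exact bow_of_four_seven hq h4 (by simpa using lam_of_rch hq hr h4)
      · have h6 : Lam G q 6 := by
          filter_upwards [hc, hN, h2, h3] with i hi hi1 hi2 hi3
          filter_upwards [hi, hN, hi2, h2, h3] with k hk hk1 hk2 hk4 hk3
          rw [← Ultrafilter.eventually_not] at hk
          intro S
          obtain ⟨j, hj0, hj1, hj2, hj3, hj4, hj5, hj6, hj7, hj8, hj9, hj10⟩ :=
            (hk.and ((hi1 S).and ((hk1 S).and ((ev_nonadj hqn S).and (hi3.and (hk3.and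
              (hi2.and (hk4.and ((ev_avoid hq S).and ((hqn (q i)).and (hqn (q k)))))))))))).exists
          obtain ⟨x, y, a1, a2, a3⟩ := hj4
          obtain ⟨x', y', b1, b2, b3⟩ := hj5
          have hyy : y ≠ y' := by
            rintro rfl
            exact hj0 ⟨x, y, x', a1, a2, b1, b2, a3⟩
          have hxx : x ≠ x' := by
            rintro rfl
            exact hk2 ⟨x, a1, b1.symm⟩
          have hxq : x ≠ q j := by
            rintro rfl
            exact hj9 a1.symm
          have hxq' : x' ≠ q j := by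
            rintro rfl
            exact hj10 b1.symm
          have hxy' : x ≠ y' := by
            rintro rfl
            exact hj6 ⟨x, a1, b3⟩
          have hyx' : y ≠ x' := by
            rintro rfl
            exact hj7 ⟨y, b1, a3⟩
          refine ⟨[x, y, q j, y', x'], rfl, ?_, ?_, ?_⟩
          · simp [a2.ne, hxq, hxy', hxx, a3.ne, hyy, hyx', b3.ne.symm, hxq'.symm, b2.ne.symm]
          · intro w hw hwS
            simp only [List.mem_cons, List.not_mem_nil, or_false] at hw
            rcases hw with hw | hw | hw | hw | hw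
            · subst hw; exact hj1 _ hwS a1 ⟨y, a2, a3⟩
            · subst hw; exact hj3 _ hwS a3.symm
            · subst hw; exact hj8 hwS
            · subst hw; exact hj3 _ hwS b3.symm
            · subst hw; exact hj2 _ hwS b1 ⟨y', b2, b3⟩
          · simp [a1, a2, a3, b3.symm, b2.symm, b1.symm]
        exact bow_of_six hq h6

/-- a segment of the ray, closed up at both ends -/
lemma ray_chain {p : ℕ → V} (hadj : ∀ n, G.Adj (p n) (p (n + 1))) (v : V) :
    ∀ (d a : ℕ) (u : V), G.Adj u (p a) → G.Adj (p (a + d)) v →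
      (u :: (List.range (d + 1)).map (fun t => p (a + t)) ++ [v]).IsChain G.Adj := by
  intro d
  induction d with
  | zero =>
    intro a u h1 h2
    simpa using ⟨h1, h2⟩
  | succ d ih =>
    intro a u h1 h2
    have := ih (a + 1) (p a) (hadj a) (by rwa [show a + 1 + d = a + (d + 1) by omega])
    rw [List.range_succ_eq_map]
    simp only [List.map_cons, List.map_map, Nat.add_zero, List.cons_append]
    rw [List.isChain_cons_cons]
    refine ⟨h1, ?_⟩
    have e : ((fun t => p (a + t)) ∘ Nat.succ) = fun t => p (a + 1 + t) := by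
      funext t
      simp only [Function.comp, Nat.succ_eq_add_one]
      congr 1
      omega
    rw [e]
    simpa using this

/-- **Infinite version.** -/
theorem infinite_case (p : ℕ → V) (hp : Function.Injective p)
    (hadj : ∀ n, G.Adj (p n) (p (n + 1)))
    (hd : ∀ u v, u = v ∨ G.Adj u v ∨ (∃ x, G.Adj u x ∧ G.Adj x v) ∨
      ∃ x y, G.Adj u x ∧ G.Adj x y ∧ G.Adj y v) : Bow G 12 18 := by
  classical
  have hav : ∀ s v, ∀ᶠ i in (UU : Filter ℕ), p (i + s) ≠ v := by
    intro s v
    have hfin : {i | p (i + s) = v}.Finite := by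
      apply Set.Subsingleton.finite
      intro a ha b hb
      have := hp ((ha : p (a + s) = v).trans (hb : p (b + s) = v).symm)
      omega
    have := Filter.hyperfilter_le_cofinite (α := ℕ) hfin.compl_mem_cofinite
    exact this
  by_cases hc : ∀ s, ∃ v, ∀ᶠ i in (UU : Filter ℕ), G.Adj (p (i + s)) v
  · -- every offset is centred
    choose c hc using hc
    by_contra hB
    refine centres_core hB c ?_
    intro x d S
    have e1 : ∀ᶠ i in (UU : Filter ℕ), ∀ t ∈ Finset.range (d + 1), p (i + x + t) ∉ S := by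
      rw [Finset.eventually_all]
      intro t _
      have := ev_avoid (w := fun i => p (i + (x + t))) (hav (x + t)) S
      simpa [Nat.add_assoc] using this
    obtain ⟨i, hi1, hi2, hi3⟩ := ((hc x).and ((hc (x + d)).and e1)).exists
    refine ⟨(List.range (d + 1)).map (fun t => p (i + x + t)), by simp, ?_, ?_, ?_⟩
    · apply List.Nodup.map _ List.nodup_range
      intro a b hab
      have := hp hab
      omega
    · intro y hy
      rw [List.mem_map] at hy
      obtain ⟨t, ht, rfl⟩ := hy
      exact hi3 t (by simpa using ht)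
    · refine ray_chain hadj _ d (i + x) _ hi1.symm ?_
      rwa [show i + x + d = i + (x + d) by omega]
  · push Not at hc
    obtain ⟨s, hs⟩ := hc
    exact generic_case (q := fun i => p (i + s)) (hav s) hs hd

end Pool.Agent.Work.MP_fe499a_co
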