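import Mathlib
import Pool.Agent.Work.MP_fe499a_co.Generic

/-!
Compactness (ultraproduct) step: finite graphs of diameter at most three with arbitrarily long
paths contain the bow tie with cycles of lengths `12` and `18`.
-/

open Filter

namespace Pool.Agent.Work.MP_fe499a_co

/-- The bow tie: `0` is the common vertex, `0,1,…,11` is the cycle of length `12` and
`0,12,13,…,28` is the cycle of length `18`. -/
def bowF : SimpleGraph (Fin 29) :=
  SimpleGraph.fromRel (fun i j => (i.val + 1 = j.val ∧ i.val ≠ 11) ∨
    (i.val = 0 ∧ (j.val = 11 ∨ j.val = 12 ∨ j.val = 28)))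

instance : DecidableRel bowF.Adj := by
  unfold bowF
  infer_instance

lemma bow_contained {V : Type*} {G : SimpleGraph V} (h : Bow G 12 18) : bowF.IsContained G := by
  classical
  obtain ⟨v, l₁, l₂, h1, h2, hn, c1, c2⟩ := h
  have e1 : l₁.length = 11 := by omega
  have e2 : l₂.length = 17 := by omega
  have eL : (v :: (l₁ ++ l₂)).length = 29 := by simp [e1, e2]
  rw [List.isChain_iff_getElem] at c1 c2
  let f : Fin 29 → V := fun i => (v :: (l₁ ++ l₂))[i.val]'(by rw [eL]; exact i.2)
  have finj : Function.Injective f := by
    intro i j hij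
    have := (List.Nodup.getElem_inj_iff hn (hi := by rw [eL]; exact i.2)
      (hj := by rw [eL]; exact j.2)).1 hij
    exact Fin.ext this
  have f0 : ∀ i : Fin 29, i.val = 0 → f i = v := by
    intro i hi
    simp only [f, hi]
    rfl
  have fl1 : ∀ (i : Fin 29) (k : ℕ) (hk : k < 11), i.val = k + 1 → f i = l₁[k]'(by omega) := by
    intro i k hk hi
    simp only [f, hi, List.getElem_cons_succ]
    rw [List.getElem_append_left]
  have fl2 : ∀ (i : Fin 29) (k : ℕ) (hk : k < 17), i.val = k + 12 → f i = l₂[k]'(by omega) := by
    intro i k hk hi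
    simp only [f, hi]
    rw [List.getElem_cons_succ, List.getElem_append_right (by omega)]
    congr 1
    omega
  have d1 : ∀ k (hk : k + 1 < 11), G.Adj (l₁[k]'(by omega)) (l₁[k + 1]'(by omega)) := by
    intro k hk
    have := c1 (k + 1) (by simp; omega)
    simp only [List.cons_append, List.getElem_cons_succ] at this
    rwa [List.getElem_append_left (by omega), List.getElem_append_left (by omega)] at this
  have d2 : ∀ k (hk : k + 1 < 17), G.Adj (l₂[k]'(by omega)) (l₂[k + 1]'(by omega)) := by
    intro k hk
    have := c2 (k + 1) (by simp; omega)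
    simp only [List.cons_append, List.getElem_cons_succ] at this
    rwa [List.getElem_append_left (by omega), List.getElem_append_left (by omega)] at this
  have s1 : G.Adj v (l₁[0]'(by omega)) := by
    have := c1 0 (by simp)
    simp only [List.cons_append, List.getElem_cons_zero, List.getElem_cons_succ] at this
    rwa [List.getElem_append_left (by omega)] at this
  have s2 : G.Adj v (l₂[0]'(by omega)) := by
    have := c2 0 (by simp)
    simp only [List.cons_append, List.getElem_cons_zero, List.getElem_cons_succ] at this
    rwa [List.getElem_append_left (by omega)] at this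
  have t1 : G.Adj (l₁[10]'(by omega)) v := by
    have := c1 11 (by simp; omega)
    simp only [List.cons_append, List.getElem_cons_succ] at this
    rw [List.getElem_append_left (by omega), List.getElem_append_right (by omega)] at this
    simpa using this
  have t2 : G.Adj (l₂[16]'(by omega)) v := by
    have := c2 17 (by simp; omega)
    simp only [List.cons_append, List.getElem_cons_succ] at this
    rw [List.getElem_append_left (by omega), List.getElem_append_right (by omega)] at this
    simpa using this
  have key : ∀ i j : Fin 29, ((i.val + 1 = j.val ∧ i.val ≠ 11) ∨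
      (i.val = 0 ∧ (j.val = 11 ∨ j.val = 12 ∨ j.val = 28))) → G.Adj (f i) (f j) := by
    intro i j hij
    rcases hij with ⟨h, hne⟩ | ⟨h, h' | h' | h'⟩
    · by_cases hi0 : i.val = 0
      · rw [f0 i hi0, fl1 j 0 (by norm_num) (by omega)]
        exact s1
      · by_cases hi : i.val ≤ 10
        · rw [fl1 i (i.val - 1) (by omega) (by omega), fl1 j (i.val - 1 + 1) (by omega) (by omega)]
          exact d1 _ (by omega)
        · have := j.2
          rw [fl2 i (i.val - 12) (by omega) (by omega),
            fl2 j (i.val - 12 + 1) (by omega) (by omega)]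
          exact d2 _ (by omega)
    · rw [f0 i h, fl1 j 10 (by norm_num) (by omega)]
      exact t1.symm
    · rw [f0 i h, fl2 j 0 (by norm_num) (by omega)]
      exact s2
    · rw [f0 i h, fl2 j 16 (by norm_num) (by omega)]
      exact t2.symm
  refine ⟨⟨⟨f, ?_⟩, finj⟩⟩
  intro i j hij
  rw [bowF, SimpleGraph.fromRel_adj] at hij
  rcases hij.2 with h | h
  · exact key i j h
  · exact (key j i h).symm

lemma dist_three {V : Type*} {G : SimpleGraph V} (h : G.ediam ≤ 3) (u v : V) :
    u = v ∨ G.Adj u v ∨ (∃ x, G.Adj u x ∧ G.Adj x v) ∨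
      ∃ x y, G.Adj u x ∧ G.Adj x y ∧ G.Adj y v := by
  have h1 : G.edist u v ≤ 3 := SimpleGraph.edist_le_ediam.trans h
  have h2 : G.edist u v ≠ ⊤ := by
    intro h3
    rw [h3] at h1
    exact absurd h1 (by simp)
  obtain ⟨p, hp⟩ := SimpleGraph.exists_walk_of_edist_ne_top h2
  rw [← hp] at h1
  have h3 : p.length ≤ 3 := by exact_mod_cast h1
  cases p with
  | nil => exact Or.inl rfl
  | cons a p =>
    cases p with
    | nil => exact Or.inr (Or.inl a)
    | cons b p =>
      cases p with
      | nil => exact Or.inr (Or.inr (Or.inl ⟨_, a, b⟩))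
      | cons c p =>
        cases p with
        | nil => exact Or.inr (Or.inr (Or.inr ⟨_, _, a, b, c⟩))
        | cons d p =>
          simp only [SimpleGraph.Walk.length_cons] at h3
          omega

/-- The vertex set of the ultraproduct. -/
abbrev UP (W : ℕ → Type) := Quotient (Filter.productSetoid (UU : Filter ℕ) W)

/-- The ultraproduct of a sequence of graphs. -/
def ultra (W : ℕ → Type) (G : ∀ k, SimpleGraph (W k)) :
    SimpleGraph (UP W) where
  Adj a b := Quotient.liftOn₂' a b (fun f g => ∀ᶠ k in (UU : Filter ℕ), (G k).Adj (f k) (g k)) (by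
    intro f g f' g' h1 h2
    apply propext
    constructor
    · intro h
      filter_upwards [h, h1, h2] with k a b c
      rw [← b, ← c]
      exact a
    · intro h
      filter_upwards [h, h1, h2] with k a b c
      rw [b, c]
      exact a)
  symm := ⟨by
    intro a b
    induction a using Quotient.inductionOn'
    induction b using Quotient.inductionOn'
    intro h
    simp only [Quotient.liftOn₂'_mk''] at h ⊢
    filter_upwards [h] with k hk using hk.symm⟩
  loopless := ⟨by
    intro a
    induction a using Quotient.inductionOn'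
    intro h
    simp only [Quotient.liftOn₂'_mk''] at h
    obtain ⟨k, hk⟩ := h.exists
    exact hk.ne rfl⟩

lemma ultra_adj (W : ℕ → Type) (G : ∀ k, SimpleGraph (W k)) (f g : ∀ k, W k) :
    (ultra W G).Adj (Quotient.mk'' f) (Quotient.mk'' g) ↔
      ∀ᶠ k in (UU : Filter ℕ), (G k).Adj (f k) (g k) := Iff.rfl

lemma ultra_eq (W : ℕ → Type) (f g : ∀ k, W k) :
    ((Quotient.mk'' f : UP W) = Quotient.mk'' g) ↔
      ∀ᶠ k in (UU : Filter ℕ), f k = g k := Quotient.eq''

theorem ultra_bow (W : ℕ → Type) (G : ∀ k, SimpleGraph (W k))
    (hd : ∀ k, ∀ u v : W k, u = v ∨ (G k).Adj u v ∨ (∃ x, (G k).Adj u x ∧ (G k).Adj x v) ∨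
      ∃ x y, (G k).Adj u x ∧ (G k).Adj x y ∧ (G k).Adj y v)
    (hl : ∀ k, ∃ l : List (W k), l.Nodup ∧ l.IsChain (G k).Adj ∧ k < l.length) :
    ∃ k, bowF.IsContained (G k) := by
  classical
  choose l l1 l2 l3 using hl
  let g : ∀ (i k : ℕ), W k := fun i k =>
    if h : i < (l k).length then (l k)[i] else (l k)[0]'(by have := l3 k; omega)
  have hg : ∀ i k (h : i < (l k).length), g i k = (l k)[i] := fun i k h => by
    simp only [g, dif_pos h]
  have hlarge : ∀ i, ∀ᶠ k in (UU : Filter ℕ), i < k := by
    intro i
    have hfin : {k : ℕ | ¬ i < k}.Finite := by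
      apply (Set.finite_Iic i).subset
      intro k hk
      simpa using hk
    have := Filter.hyperfilter_le_cofinite (α := ℕ) hfin.compl_mem_cofinite
    filter_upwards [this] with k hk
    simpa using hk
  let p : ℕ → UP W := fun i => Quotient.mk'' (g i)
  have hp : Function.Injective p := by
    intro i j hij
    have h1 := (ultra_eq W _ _).1 hij
    obtain ⟨k, hk, hki, hkj⟩ := (h1.and ((hlarge i).and (hlarge j))).exists
    have := l3 k
    rw [hg i k (by omega), hg j k (by omega)] at hk
    exact (List.Nodup.getElem_inj_iff (l1 k)).1 hk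
  have hadj : ∀ n, (ultra W G).Adj (p n) (p (n + 1)) := by
    intro n
    rw [ultra_adj]
    filter_upwards [hlarge (n + 1)] with k hk
    have := l3 k
    rw [hg n k (by omega), hg (n + 1) k (by omega)]
    exact (List.isChain_iff_getElem.1 (l2 k)) n (by omega)
  have hdd : ∀ u v, u = v ∨ (ultra W G).Adj u v ∨ (∃ x, (ultra W G).Adj u x ∧
      (ultra W G).Adj x v) ∨
      ∃ x y, (ultra W G).Adj u x ∧ (ultra W G).Adj x y ∧ (ultra W G).Adj y v := by
    intro u v
    induction u using Quotient.inductionOn' with
    | h a =>
    induction v using Quotient.inductionOn' with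
    | h b =>
    rw [ultra_eq, ultra_adj]
    have h0 : ∀ᶠ k in (UU : Filter ℕ), (a k = b k ∨ (G k).Adj (a k) (b k) ∨
      (∃ x, (G k).Adj (a k) x ∧ (G k).Adj x (b k)) ∨
      ∃ x y, (G k).Adj (a k) x ∧ (G k).Adj x y ∧ (G k).Adj y (b k)) :=
      Filter.Eventually.of_forall (fun k => hd k (a k) (b k))
    rw [Ultrafilter.eventually_or, Ultrafilter.eventually_or, Ultrafilter.eventually_or] at h0
    rcases h0 with h | h | h | h
    · exact Or.inl h
    · exact Or.inr (Or.inl h)
    · right; right; left
      let x : ∀ k, W k := fun k =>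
        if h : ∃ x, (G k).Adj (a k) x ∧ (G k).Adj x (b k) then h.choose else a k
      have hx : ∀ᶠ k in (UU : Filter ℕ), (G k).Adj (a k) (x k) ∧ (G k).Adj (x k) (b k) := by
        filter_upwards [h] with k hk
        simp only [x, dif_pos hk]
        exact hk.choose_spec
      refine ⟨Quotient.mk'' x, ?_, ?_⟩
      · rw [ultra_adj]; filter_upwards [hx] with k hk using hk.1
      · rw [ultra_adj]; filter_upwards [hx] with k hk using hk.2
    · right; right; right
      let x : ∀ k, W k := fun k =>
        if h : ∃ x y, (G k).Adj (a k) x ∧ (G k).Adj x y ∧ (G k).Adj y (b k) then h.choose else a k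
      let y : ∀ k, W k := fun k =>
        if h : ∃ x y, (G k).Adj (a k) x ∧ (G k).Adj x y ∧ (G k).Adj y (b k) then
          h.choose_spec.choose else a k
      have hx : ∀ᶠ k in (UU : Filter ℕ), (G k).Adj (a k) (x k) ∧ (G k).Adj (x k) (y k) ∧
          (G k).Adj (y k) (b k) := by
        filter_upwards [h] with k hk
        simp only [x, y, dif_pos hk]
        exact hk.choose_spec.choose_spec
      refine ⟨Quotient.mk'' x, Quotient.mk'' y, ?_, ?_, ?_⟩
      · rw [ultra_adj]; filter_upwards [hx] with k hk using hk.1
      · rw [ultra_adj]; filter_upwards [hx] with k hk using hk.2.1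
      · rw [ultra_adj]; filter_upwards [hx] with k hk using hk.2.2
  obtain ⟨c⟩ := bow_contained (infinite_case p hp hadj hdd)
  -- descend to a factor
  have hrep : ∀ i : Fin 29, ∃ r : ∀ k, W k, c.toHom i = Quotient.mk'' r := by
    intro i
    exact ⟨Quotient.out (c.toHom i), (Quotient.out_eq' (c.toHom i)).symm⟩
  choose r hr using hrep
  have ha : ∀ᶠ k in (UU : Filter ℕ), ∀ i j : Fin 29, bowF.Adj i j →
      (G k).Adj (r i k) (r j k) := by
    rw [Filter.eventually_all]
    intro i
    rw [Filter.eventually_all]
    intro j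
    by_cases hij : bowF.Adj i j
    · have := c.toHom.map_adj hij
      rw [hr i, hr j, ultra_adj] at this
      filter_upwards [this] with k hk _ using hk
    · exact Filter.Eventually.of_forall (fun k h => absurd h hij)
  have hb : ∀ᶠ k in (UU : Filter ℕ), ∀ i j : Fin 29, i ≠ j → r i k ≠ r j k := by
    rw [Filter.eventually_all]
    intro i
    rw [Filter.eventually_all]
    intro j
    by_cases hij : i = j
    · exact Filter.Eventually.of_forall (fun k h => absurd hij h)
    · have : ¬ ∀ᶠ k in (UU : Filter ℕ), r i k = r j k := by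
        intro h
        have h2 : c.toHom i = c.toHom j := by
          rw [hr i, hr j, ultra_eq]
          exact h
        exact hij (c.injective' h2)
      rw [← Ultrafilter.eventually_not] at this
      filter_upwards [this] with k hk _ using hk
  obtain ⟨k, hk1, hk2⟩ := (ha.and hb).exists
  refine ⟨k, ⟨⟨⟨fun i => r i k, fun {i j} hij => hk1 i j hij⟩, ?_⟩⟩⟩
  intro i j hij
  by_contra hne
  exact hk2 i j hne hij

end Pool.Agent.Work.MP_fe499a_co
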